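import Mathlib
import Pool.Agent.Lib.MP_4cbb29_co.Defs
import Pool.Agent.Lib.MP_4cbb29_co.Proof

set_option autoImplicit false

namespace Pool.Agent.Results.MP_4cbb29_co.DoubleBroomMB

open Pool.Agent.Lib.MP_4cbb29_co

/-- For every `r ∈ {2, 3, 4}` and all `m, n > 1`, the complement of the double broom
`S^r_{m,n}` satisfies `q = 2` and `MB = 3`. -/
theorem result : ∀ r m n : ℕ, (r = 2 ∨ r = 3 ∨ r = 4) → 1 < m → 1 < n →
    qMin (doubleBroom r m n)ᶜ = 2 ∧ MB (doubleBroom r m n)ᶜ = 3 := by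
  intro r m n hr hm hn
  have hach := achieves_three hr hm hn
  obtain ⟨a, b, c, d, hab, hbc, hcd, nab, nbc, ncd, ac, bd, ad⟩ := exists_path hr hm hn
  constructor
  · apply le_antisymm
    · apply Nat.sInf_le
      obtain ⟨A, hA, x, y, hxy, hsp, -, -⟩ := hach
      exact ⟨A, hA, by rw [hsp]; exact Set.ncard_pair hxy⟩
    · apply le_csInf
      · obtain ⟨A, hA, x, y, hxy, hsp, -, -⟩ := hach
        exact ⟨_, A, hA, rfl⟩
      · rintro k ⟨A, hA, rfl⟩
        exact two_le_ncard hA ac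
  · have hmem : (3 : ℕ) ∈ {k | 1 ≤ k ∧ 2 * k ≤ Fintype.card (Fin r ⊕ (Fin m ⊕ Fin n)) ∧
        Achieves (doubleBroom r m n)ᶜ (Fintype.card (Fin r ⊕ (Fin m ⊕ Fin n)) - k) k} := by
      refine ⟨by norm_num, ?_, hach⟩
      rw [card_vert]
      rcases hr with rfl | rfl | rfl <;> omega
    apply le_antisymm
    · exact Nat.sInf_le hmem
    · apply le_csInf ⟨3, hmem⟩
      rintro k ⟨-, -, A, hA, x, y, -, hsp, -, rfl⟩
      exact three_le_of_pattern hA hsp hab hbc hcd nab nbc ncd ac bd ad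

end Pool.Agent.Results.MP_4cbb29_co.DoubleBroomMB
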